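import Pool.Agent.H97.PR.Targets

/-! Row ADV of the board `pry_modules` (MP_c62aed_lc): the adversary of a random formula. -/

namespace Pool.Agent.H38.PRY

open Finset
open Pool.Agent.H97
open Pool.Agent.H97.PR

theorem pf_ADV (hASK : RK.T_ASK) (hFGT : RK.T_FGT) (hTAU : RK.T_TAU) : T_ADV := by
  intro N k m F j t d e s₀ hPar hed
  refine ⟨fun A y => A.card + (e + d) ≤ N ∧ ∃ (y' : Fin N → Bool) (W : Finset (Fin N))
    (J : Finset (Fin m)), RK.St F j t y' A W J ∧ ∀ u ∈ A, y' u = y u, ?_, ?_, ?_, ?_, ?_⟩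
  · intro y
    refine ⟨by simpa using hed, ?_⟩
    obtain ⟨y', W, J, hS, _⟩ := hTAU N k m F j t d e s₀ hPar y ∅ (by
      rw [Finset.card_empty]; omega)
    exact ⟨y', W, J, hS, by simp⟩
  · rintro A y y' hyy ⟨hc, y₀, W, J, hS, h0⟩
    exact ⟨hc, y₀, W, J, hS, fun u hu => by rw [h0 u hu, hyy u hu]⟩
  · rintro A A₀ y hA ⟨hc, y₀, W, J, hS, h0⟩
    have hcard : A₀.card ≤ A.card := Finset.card_le_card hA
    obtain ⟨y', W', J', hS', h1, _⟩ := hFGT N k m F j t d e s₀ hPar y₀ A A₀ W J hS hA (by omega)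
    exact ⟨by omega, y', W', J', hS', fun u hu => by rw [h1 u hu, h0 u (hA hu)]⟩
  · rintro A v y hAD hv ⟨hc, y₀, W, J, hS, h0⟩
    obtain ⟨y', W', J', hS', h1, _⟩ := hASK N k m F j t d e s₀ hPar y₀ A W J v hS hv (by omega)
    refine ⟨y', fun u hu => by rw [h1 u (mem_insert_of_mem hu), h0 u hu], ?_, y', W', J', hS',
      fun _ _ => rfl⟩
    rw [Finset.card_insert_of_notMem hv]
    omega
  · rintro A y c ⟨hc, y₀, W, J, hS, h0⟩ hA
    by_cases hcJ : c ∈ J
    · obtain ⟨i, hi, hi'⟩ := hS.sat c hcJ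
      exact ⟨i, by rw [← h0 _ (hA i)]; exact hi'⟩
    · by_cases hAl : RK.Al F y₀ A c
      · exfalso
        have h2 := hS.out c hcJ hAl
        have h3 : RK.out F c (A ∪ W) = 0 := by
          unfold RK.out
          rw [Finset.card_eq_zero, Finset.filter_eq_empty_iff]
          intro i _ hi
          exact hi (mem_union_left _ (hA i))
        omega
      · unfold RK.Al at hAl
        push Not at hAl
        obtain ⟨i, hi, hi'⟩ := hAl
        exact ⟨i, by rw [← h0 _ (hA i)]; exact hi'⟩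

end Pool.Agent.H38.PRY
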